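import Pool.Agent.Lib.MP_3a30fb_gt.Final

/-!
In cell differential graded modules over the cobar algebra of `(BP_*, BP_* BP)` at the prime 2
(the algebraic model of cellular `Cτ`-modules), the finite localisation `L^f_(3,0)` and the
Bousfield localisation `L_(3,0)` of the unit and the natural map between them exist, and the
natural map is not an equivalence.
-/

namespace Pool.Agent.Results.MP_3a30fb_gt.CtauFailure

open Pool.Agent.Tel

theorem result :
    (∃ (κ κ' : Type) (Z : Cell κ) (Z' : Cell κ') (η : Map unit Z) (η' : Map unit Z')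
      (φ : Map Z Z'), IsFinLoc 3 0 η ∧ IsLoc 3 0 η' ∧ (φ.comp η).Htp η') ∧
    ∀ (κ κ' : Type) (Z : Cell κ) (Z' : Cell κ') (η : Map unit Z) (η' : Map unit Z')
      (φ : Map Z Z'), IsFinLoc 3 0 η → IsLoc 3 0 η' → (φ.comp η).Htp η' → ¬ φ.IsEquiv :=
  final

end Pool.Agent.Results.MP_3a30fb_gt.CtauFailure
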